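import Pool.Agent.Work.MP_b29d7f_ns.Interface3

/-! Block HRAD -/

set_option autoImplicit false

open Finset Filter Topology MeasureTheory

namespace Pool.NS

namespace HRAD_

open Data

variable {R : Type} [CommRing R] {P : Data R} (S : Sq P)

/-- lower bound for `pT` -/
lemma pT_ge (hLB : Stmt_LB) : ∃ C : ℝ, 0 ≤ C ∧ ∀ l x, -C ≤ S.pT l x := by
  obtain ⟨C, hC, h⟩ := hLB R P S
  have hq : 0 ≤ ∑ t, P.lq t := Finset.sum_nonneg fun t _ => (S.good.lq_pos t).le
  refine ⟨C * ∑ t, P.lq t, mul_nonneg hC hq, fun l x => ?_⟩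
  obtain ⟨-, h2, h3⟩ := h l (P.Mx (S.A l).card) le_rfl
  unfold Sq.pT
  rw [← neg_mul, Finset.mul_sum]
  apply Finset.sum_le_sum
  intro t _
  rw [mul_comm]
  apply mul_le_mul_of_nonneg_left _ (S.good.lq_pos t).le
  by_cases hx : x = 0
  · rw [hx]; exact h3 t
  · refine le_trans ?_ (h2 t x hx)
    have : (0 : ℝ) ≤ ((max (P.lev t x - S.j l t) 0 : ℤ) : ℝ) := by
      exact_mod_cast le_max_right _ _
    linarith

/-- upper bound for `pT 0` -/
lemma pT_zero_le (hUB : Stmt_UB) : ∃ C : ℝ, 0 ≤ C ∧ ∀ᶠ l in atTop, S.pT l 0 ≤ C := by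
  obtain ⟨C, hC, h⟩ := hUB R P S
  have hq : 0 ≤ ∑ t, P.lq t := Finset.sum_nonneg fun t _ => (S.good.lq_pos t).le
  refine ⟨C * ∑ t, P.lq t, mul_nonneg hC hq, ?_⟩
  filter_upwards [h] with l hl
  obtain ⟨-, -, h3⟩ := hl (P.Mx (S.A l).card)
  unfold Sq.pT
  rw [Finset.mul_sum]
  apply Finset.sum_le_sum
  intro t _
  rw [mul_comm C]
  exact mul_le_mul_of_nonneg_left (h3 t) (S.good.lq_pos t).le

lemma hyper_le : 𝒰 ≤ atTop := Nat.hyperfilter_le_atTop

/-- a bounded sequence converges along `𝒰` -/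
lemma exists_lim {u : ℕ → ℝ} {B : ℝ} (h : ∀ᶠ l in 𝒰, |u l| ≤ B) : ∃ a, Tendsto u 𝒰 (𝓝 a) := by
  have h1 : ∀ᶠ l in 𝒰, u l ∈ Set.Icc (-B) B := by
    filter_upwards [h] with l hl using ⟨(abs_le.1 hl).1, (abs_le.1 hl).2⟩
  obtain ⟨a, -, ha⟩ := (isCompact_Icc (a := -B) (b := B)).ultrafilter_le_nhds
    ((hyperfilter ℕ).map u) (by rw [Filter.le_principal_iff]; exact h1)
  exact ⟨a, ha⟩

/-- radial functions -/
lemma radial {k : ℕ} {f φ : E k → ℝ} {z₀ : E k} (h : Rad f φ z₀) {x y : E k}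
    (hxy : ‖x - z₀‖ = ‖y - z₀‖) : φ x = φ y := by
  obtain ⟨c, hc, h1⟩ := h.low (max ‖x‖ ‖y‖)
  have h2 := h1 x y (le_max_left _ _) (le_max_right _ _) hxy.le
  have h3 := h1 y x (le_max_right _ _) (le_max_left _ _) hxy.ge
  rw [hxy, sub_self, mul_zero] at h2
  rw [hxy, sub_self, mul_zero] at h3
  linarith

/-- growth from the centre -/
lemma grow {k : ℕ} {f φ : E k → ℝ} {z₀ : E k} (h : Rad f φ z₀) (B : ℝ) (hB : ‖z₀‖ ≤ B) :
    ∃ c : ℝ, 0 < c ∧ ∀ y, ‖y‖ ≤ B → c * ‖y - z₀‖ ^ 2 ≤ φ y - φ z₀ := by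
  obtain ⟨c, hc, h1⟩ := h.low B
  refine ⟨c, hc, fun y hy => ?_⟩
  have h2 := h1 z₀ y hB hy (by rw [sub_self, norm_zero]; exact norm_nonneg _)
  rw [sub_self, norm_zero] at h2
  simpa using h2

/-- small balls have small mass -/
lemma small_mass {k : ℕ} (hk : k = 1 ∨ k = 2) {f : E k → ℝ} (hf : ∀ z, 0 ≤ f z)
    (hb : ∃ B, ∀ z, f z ≤ B) (z₀ : E k) : ∃ r : ℝ, 0 < r ∧
    ∃ g : E k → ℝ, Continuous g ∧ HasCompactSupport g ∧ (∀ z, 0 ≤ g z) ∧
      (∀ z, ‖z - z₀‖ ≤ r → g z = 1) ∧ ∫ z, g z * f z ≤ 1 / 2 := by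
  obtain ⟨B₀, hB₀⟩ := hb
  set B := max B₀ 0 with hB
  have hB0 : 0 ≤ B := le_max_right _ _
  have hfB : ∀ z, f z ≤ B := fun z => (hB₀ z).trans (le_max_left _ _)
  set V : ℝ := (volume (Metric.ball (0 : E k) 1)).toReal with hV
  have hV0 : 0 ≤ V := ENNReal.toReal_nonneg
  set r : ℝ := min (1 / 2) (1 / (4 * (B * V + 1))) with hr
  have hBV : 0 < B * V + 1 := by positivity
  have hr0 : 0 < r := lt_min (by norm_num) (by positivity)
  have hr1 : 2 * r ≤ 1 := by have := min_le_left (1 / 2 : ℝ) (1 / (4 * (B * V + 1))); linarith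
  have hr2 : 2 * r * (B * V) ≤ 1 / 2 := by
    have h1 : r ≤ 1 / (4 * (B * V + 1)) := min_le_right _ _
    rw [le_div_iff₀ (by positivity)] at h1
    nlinarith
  set g : E k → ℝ := fun z => max 0 (min 1 (2 - ‖z - z₀‖ / r)) with hg
  have hgz : ∀ z, 2 * r < ‖z - z₀‖ → g z = 0 := by
    intro z hz
    have h1 : 2 - ‖z - z₀‖ / r ≤ 0 := by
      rw [sub_nonpos, le_div_iff₀ hr0]; exact hz.le
    show max 0 (min 1 (2 - ‖z - z₀‖ / r)) = 0
    exact max_eq_left ((min_le_right _ _).trans h1)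
  have hgle : ∀ z, g z ≤ 1 := fun z => max_le zero_le_one (min_le_left _ _)
  refine ⟨r, hr0, g, ?_, ?_, fun z => le_max_left _ _, ?_, ?_⟩
  · fun_prop
  · apply HasCompactSupport.intro (isCompact_closedBall z₀ (2 * r))
    intro z hz
    apply hgz
    rw [Metric.mem_closedBall, not_le, dist_eq_norm] at hz
    exact hz
  · intro z hz
    show max 0 (min 1 (2 - ‖z - z₀‖ / r)) = 1
    have h1 : 1 ≤ 2 - ‖z - z₀‖ / r := by
      have : ‖z - z₀‖ / r ≤ 1 := by rw [div_le_one hr0]; exact hz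
      linarith
    rw [min_eq_left h1]; exact max_eq_right zero_le_one
  · have hvol : volume (Metric.closedBall z₀ (2 * r))
        = ENNReal.ofReal ((2 * r) ^ k) * volume (Metric.ball (0 : E k) 1) := by
      have := MeasureTheory.Measure.addHaar_closedBall (volume : Measure (E k)) z₀
        (r := 2 * r) (by positivity)
      rwa [finrank_euclideanSpace, Fintype.card_fin] at this
    have hfin : volume (Metric.closedBall z₀ (2 * r)) ≠ ⊤ :=
      (isCompact_closedBall z₀ (2 * r)).measure_lt_top.ne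
    have h1 : ∫ z, g z * f z ≤ ∫ z, (Metric.closedBall z₀ (2 * r)).indicator (fun _ => B) z := by
      apply integral_mono_of_nonneg
      · exact Eventually.of_forall fun z => mul_nonneg (le_max_left _ _) (hf z)
      · apply (integrable_indicator_iff measurableSet_closedBall).2
        exact integrableOn_const hfin
      · apply Eventually.of_forall
        intro z
        show g z * f z ≤ (Metric.closedBall z₀ (2 * r)).indicator (fun _ => B) z
        by_cases hz : z ∈ Metric.closedBall z₀ (2 * r)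
        · rw [Set.indicator_of_mem hz]
          have h2 := hgle z
          have h3 := hf z
          have h4 := hfB z
          nlinarith
        · rw [Set.indicator_of_notMem hz, hgz z, zero_mul]
          rw [Metric.mem_closedBall, not_le, dist_eq_norm] at hz
          exact hz
    rw [integral_indicator measurableSet_closedBall, setIntegral_const, smul_eq_mul] at h1
    refine h1.trans ?_
    have h2 : volume.real (Metric.closedBall z₀ (2 * r)) = (2 * r) ^ k * V := by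
      rw [Measure.real, hvol, ENNReal.toReal_mul, ENNReal.toReal_ofReal (by positivity)]
    rw [h2]
    have h3 : (2 * r) ^ k ≤ 2 * r := by
      rcases hk with h | h
      · rw [h, pow_one]
      · rw [h]; nlinarith
    calc (2 * r) ^ k * V * B ≤ 2 * r * V * B := by gcongr
      _ = 2 * r * (B * V) := by ring
      _ ≤ 1 / 2 := hr2

end HRAD_

open HRAD_ Data in
theorem stmt_HRAD (hTAIL : Stmt_TAIL) (hLB : Stmt_LB) (hUB : Stmt_UB) (hGRO : Stmt_GRO)
    (hXC : Stmt_XC) : Stmt_HRAD := by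
  classical
  intro R _ P S lam hlam f φ z₀ hLim hRad v₁
  obtain ⟨Cp, hCp, hpT⟩ := pT_ge S hLB
  obtain ⟨Cu, hCu, hpT0⟩ := pT_zero_le S hUB
  obtain ⟨Bl, hBl⟩ := hlam.bdd
  obtain ⟨Wx, hWx⟩ := hXC R P S
  have hbdd := hWx 1 one_pos
  -- the limit
  have hbound : ∀ᶠ l in 𝒰, |lam l - ⨅ x, S.pT l x| ≤ Bl + Cp + Cu := by
    apply hyper_le
    filter_upwards [hBl, hpT0, hbdd] with l h1 h2 h3
    have h4 : -Cp ≤ ⨅ x, S.pT l x := le_ciInf fun x => hpT l x
    have h5 : ⨅ x, S.pT l x ≤ S.pT l 0 := ciInf_le h3.1 0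
    rw [abs_le] at h1 ⊢
    constructor <;> linarith
  obtain ⟨a, ha⟩ := exists_lim hbound
  have hgro : ∀ v, Continuous (φ v) ∧ ∀ B : ℝ, ∃ R₀ : ℝ, ∀ ξ, R₀ ≤ ‖ξ‖ → B ≤ φ v ξ := fun v =>
    hGRO (P.e v) (f v) (φ v) (S.good.e_eq v) (hLim v).dens
  -- the limit is large
  have hlarge : ∑ v, φ v (z₀ v) < a := by
    by_contra hcon
    push Not at hcon
    obtain ⟨CT, hCT1, -, hCT⟩ := hTAIL R P S
    obtain ⟨r, hr, g, hgc, hgs, hg0, hg1, hgi⟩ := small_mass (S.good.e_eq v₁)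
      (hLim v₁).dens.nonneg (hLim v₁).dens.bdd (z₀ v₁)
    set B : ℝ := Real.exp CT + ∑ v, ‖z₀ v‖ with hB
    have hzB : ∀ v, ‖z₀ v‖ ≤ B := by
      intro v
      have h1 := Finset.single_le_sum (f := fun v => ‖z₀ v‖) (fun _ _ => norm_nonneg _)
        (Finset.mem_univ v)
      have h2 := Real.exp_pos CT
      linarith
    choose cg hcg hcg' using fun v => grow (hRad v) B (hzB v)
    set N : ℝ := (Fintype.card P.Ω : ℝ) + 1 with hN
    have hN0 : 0 < N := by positivity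
    set δ : ℝ := cg v₁ * r ^ 2 / N with hδ
    have hδ0 : 0 < δ := by have := hcg v₁; positivity
    have hunif : ∀ᶠ l in 𝒰, ∀ v, ∀ ξ : E (P.e v), ‖ξ‖ ≤ B → |S.pV l v ξ - φ v ξ| ≤ δ :=
      eventually_all.2 fun v => (hLim v).unif B δ hδ0
    have hΛ : ∀ᶠ l in 𝒰, lam l - ⨅ x, S.pT l x < a + δ :=
      ha.eventually_lt_const (by linarith)
    have hT : ∀ᶠ l in 𝒰, ∑ x ∈ (S.A l).filter (fun x => CT ≤ S.ex l x), S.ex l x ≤ 1 / 16 * S.n l :=
      hyper_le (hCT (1 / 16) (by norm_num))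
    have hF : ∀ᶠ l in 𝒰, (((S.A l).filter fun x => lam l < S.Ph l x).card : ℝ) ≤ 1 / 16 * S.n l :=
      hyper_le (hlam.few (1 / 16) (by norm_num))
    have hb𝒰 : ∀ᶠ l in 𝒰, BddBelow (Set.range (S.pT l)) ∧
        ∃ b : R, S.ex l b ≤ Wx ∧ S.pT l b ≤ (⨅ x, S.pT l x) + 1 := hyper_le hbdd
    have hw := (hLim v₁).weak g hgc hgs
    have hw2 : ∀ᶠ l in 𝒰, (S.n l)⁻¹ * ∑ b ∈ S.A l, g (S.X l b v₁) < 3 / 4 :=
      hw.eventually_lt_const (by linarith)
    obtain ⟨l, h1, h2, h3, h4, h5, h6⟩ :=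
      (hunif.and (hΛ.and (hT.and (hF.and (hw2.and hb𝒰))))).exists
    have hn := S.n_pos l
    -- most elements are near the centre
    set Bad1 := (S.A l).filter fun x => CT ≤ S.ex l x with hBad1
    set Bad2 := (S.A l).filter fun x => lam l < S.Ph l x with hBad2
    have hc1 : (Bad1.card : ℝ) ≤ 1 / 16 * S.n l := by
      refine le_trans ?_ h3
      have h1 : ∑ x ∈ Bad1, (1 : ℝ) ≤ ∑ x ∈ Bad1, S.ex l x := by
        apply Finset.sum_le_sum
        intro x hx
        exact hCT1.trans (Finset.mem_filter.1 hx).2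
      rw [Finset.sum_const, nsmul_eq_mul, mul_one] at h1
      exact h1
    have hnear : ∀ x ∈ S.A l, x ∉ Bad1 → x ∉ Bad2 → ‖S.X l x v₁ - z₀ v₁‖ ≤ r := by
      intro x hx hx1 hx2
      have hex : S.ex l x ≤ CT := by
        by_contra h
        exact hx1 (Finset.mem_filter.2 ⟨hx, (not_le.1 h).le⟩)
      have hPh : S.Ph l x ≤ lam l := by
        by_contra h
        exact hx2 (Finset.mem_filter.2 ⟨hx, not_le.1 h⟩)
      have hXB : ∀ v, ‖S.X l x v‖ ≤ B := by
        intro v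
        have h7 := (S.norm_X_le l x v).trans (Real.exp_le_exp.2 hex)
        have h8 : 0 ≤ ∑ v, ‖z₀ v‖ := Finset.sum_nonneg fun _ _ => norm_nonneg _
        linarith
      have hpTi : ⨅ y, S.pT l y ≤ S.pT l x := ciInf_le h6.1 x
      have h7 : ∑ v, φ v (S.X l x v) ≤ ∑ v, (S.pV l v (S.X l x v) + δ) := by
        apply Finset.sum_le_sum
        intro v _
        have := (abs_le.1 (h1 v _ (hXB v))).1
        linarith
      rw [Finset.sum_add_distrib, Finset.sum_const, nsmul_eq_mul, Finset.card_univ] at h7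
      have h8 : ∑ v, S.pV l v (S.X l x v) = S.Ph l x - S.pT l x := by
        unfold Sq.Ph; ring
      have h9 : ∑ v, φ v (S.X l x v) ≤ ∑ v, φ v (z₀ v) + δ * N := by
        rw [hN]; rw [h8] at h7; nlinarith
      have h10 : ∀ v, φ v (z₀ v) ≤ φ v (S.X l x v) := by
        intro v
        have h11 := hcg' v _ (hXB v)
        have h12 := hcg v
        have h13 : 0 ≤ cg v * ‖S.X l x v - z₀ v‖ ^ 2 := by positivity
        linarith
      have h11 : ∑ v ∈ Finset.univ.erase v₁, φ v (z₀ v)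
          ≤ ∑ v ∈ Finset.univ.erase v₁, φ v (S.X l x v) :=
        Finset.sum_le_sum fun v _ => h10 v
      rw [← Finset.add_sum_erase _ (fun v => φ v (S.X l x v)) (Finset.mem_univ v₁),
        ← Finset.add_sum_erase _ (fun v => φ v (z₀ v)) (Finset.mem_univ v₁)] at h9
      have h12 := hcg' v₁ _ (hXB v₁)
      have h13 : cg v₁ * ‖S.X l x v₁ - z₀ v₁‖ ^ 2 ≤ cg v₁ * r ^ 2 := by
        have h14 : δ * N = cg v₁ * r ^ 2 := by rw [hδ]; field_simp
        linarith
      have h14 := le_of_mul_le_mul_left h13 (hcg v₁)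
      exact (pow_le_pow_iff_left₀ (norm_nonneg _) hr.le two_ne_zero).1 h14
    have hcard : S.n l - (1 / 16 * S.n l + 1 / 16 * S.n l) ≤ ∑ b ∈ S.A l, g (S.X l b v₁) := by
      have h7 : ∑ b ∈ (S.A l).filter (fun x => x ∉ Bad1 ∪ Bad2), (1 : ℝ)
          ≤ ∑ b ∈ (S.A l).filter (fun x => x ∉ Bad1 ∪ Bad2), g (S.X l b v₁) := by
        apply Finset.sum_le_sum
        intro x hx
        obtain ⟨hx1, hx2⟩ := Finset.mem_filter.1 hx
        rw [hg1]
        exact hnear x hx1 (fun h => hx2 (Finset.mem_union_left _ h))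
          (fun h => hx2 (Finset.mem_union_right _ h))
      have h8 : ∑ b ∈ (S.A l).filter (fun x => x ∉ Bad1 ∪ Bad2), g (S.X l b v₁)
          ≤ ∑ b ∈ S.A l, g (S.X l b v₁) :=
        Finset.sum_le_sum_of_subset_of_nonneg (Finset.filter_subset _ _) fun x _ _ => hg0 _
      rw [Finset.sum_const, nsmul_eq_mul, mul_one] at h7
      have h9 : (S.A l).card = ((S.A l).filter (fun x => x ∈ Bad1 ∪ Bad2)).card
          + ((S.A l).filter (fun x => x ∉ Bad1 ∪ Bad2)).card := by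
        rw [Finset.card_filter_add_card_filter_not]
      have h10 : ((S.A l).filter (fun x => x ∈ Bad1 ∪ Bad2)).card ≤ Bad1.card + Bad2.card := by
        refine le_trans (Finset.card_le_card ?_) (Finset.card_union_le Bad1 Bad2)
        intro x hx
        exact (Finset.mem_filter.1 hx).2
      have h11 : S.n l = (((S.A l).filter (fun x => x ∈ Bad1 ∪ Bad2)).card : ℝ)
          + ((S.A l).filter (fun x => x ∉ Bad1 ∪ Bad2)).card := by
        unfold Sq.n
        exact_mod_cast h9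
      have h12 : (((S.A l).filter (fun x => x ∈ Bad1 ∪ Bad2)).card : ℝ)
          ≤ Bad1.card + Bad2.card := by exact_mod_cast h10
      linarith
    have h7 : S.n l * (7 / 8) ≤ ∑ b ∈ S.A l, g (S.X l b v₁) := by linarith
    rw [inv_mul_lt_iff₀ hn] at h5
    linarith
  -- the radius
  have hk : 0 < P.e v₁ := by rcases S.good.e_eq v₁ with h | h <;> rw [h] <;> norm_num
  set u₀ : E (P.e v₁) := EuclideanSpace.single ⟨0, hk⟩ (1 : ℝ) with hu₀
  have hu₀n : ‖u₀‖ = 1 := by rw [hu₀]; simp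
  set b₁ : ℝ := a - ∑ v ∈ Finset.univ.erase v₁, φ v (z₀ v) with hb₁
  set h : ℝ → ℝ := fun t => φ v₁ (z₀ v₁ + t • u₀) with hh
  have hcont : Continuous h := (hgro v₁).1.comp (by fun_prop)
  have h0 : h 0 < b₁ := by
    rw [hh, hb₁]
    simp only [zero_smul, add_zero]
    rw [← Finset.add_sum_erase _ (fun v => φ v (z₀ v)) (Finset.mem_univ v₁)] at hlarge
    linarith
  obtain ⟨R₀, hR₀⟩ := (hgro v₁).2 b₁
  set T : ℝ := max 0 (R₀ + ‖z₀ v₁‖) with hT
  have hT0 : 0 ≤ T := le_max_left _ _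
  have hTb : b₁ ≤ h T := by
    apply hR₀
    have h1 : ‖T • u₀‖ = T := by rw [norm_smul, hu₀n, mul_one, Real.norm_eq_abs, abs_of_nonneg hT0]
    have h2 : ‖T • u₀‖ ≤ ‖z₀ v₁ + T • u₀‖ + ‖z₀ v₁‖ := by
      have h3 : T • u₀ = (z₀ v₁ + T • u₀) - z₀ v₁ := by abel
      calc ‖T • u₀‖ = ‖(z₀ v₁ + T • u₀) - z₀ v₁‖ := by rw [← h3]
        _ ≤ _ := norm_sub_le _ _
    have h4 : R₀ + ‖z₀ v₁‖ ≤ T := le_max_right _ _
    linarith
  obtain ⟨H, hH, hHb⟩ := intermediate_value_Icc hT0 hcont.continuousOn ⟨h0.le, hTb⟩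
  have hHpos : 0 < H := by
    rcases eq_or_lt_of_le hH.1 with h1 | h1
    · rw [← h1] at hHb; linarith
    · exact h1
  refine ⟨H, hHpos, fun u hu => ?_⟩
  have h1 : φ v₁ (z₀ v₁ + H • u) = h H := by
    apply radial (hRad v₁)
    rw [add_sub_cancel_left, add_sub_cancel_left, norm_smul, norm_smul, hu, hu₀n]
  rw [h1, hHb, hb₁, sub_add_cancel]
  exact ha

end Pool.NS
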