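import Pool.Agent.Work.MP_b29d7f_ns.Interface3

/-! Blocks MAIN, FINAL -/

set_option autoImplicit false

open Finset Filter Topology MeasureTheory NumberField IsDedekindDomain

namespace Pool.NS

open Pool.Agent.Work.MP_b29d7f_nt.Ded

open Data in
theorem stmt_MAIN (hMAINA : Stmt_MAINA) (hLOW : Stmt_LOW) (hOPT : Stmt_OPT) (hMERK : Stmt_MERK)
    (hMERR : Stmt_MERR) (hINST : Stmt_INST) (hGEO1 : Stmt_GEO1) (hGEO2 : Stmt_GEO2)
    (hGEO3 : Stmt_GEO3) : Stmt_MAIN := by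
  intro K _ _ g R _ _ _ hS hd ⟨a, ha⟩
  obtain ⟨hdom, hfr, hded, hfq, hinf⟩ := hINST K g R
  have hg : g ≠ 0 := IsSInt.ne (K := K) (R := R)
  obtain ⟨C₂, hC₂⟩ := hMERR K g R (hMERK K)
  obtain ⟨Cl, hCl⟩ := hLOW R C₂ hC₂
  obtain ⟨Cc, hCc⟩ := hGEO3 K g hg R
  obtain ⟨Co, hCo⟩ := hOPT R C₂ hC₂
  obtain ⟨hln0, hln⟩ := hGEO2 K g hg R
  obtain ⟨g1, g2, g3, g4, g5, g6, g7, g8, g9⟩ := hGEO1 K g hg R
  set C₁ : ℝ := max (max Cl Cc) (max Co 0) with hC₁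
  have h1 : Cl ≤ C₁ := (le_max_left _ _).trans (le_max_left _ _)
  have h2 : Cc ≤ C₁ := (le_max_right _ _).trans (le_max_left _ _)
  have h3 : Co ≤ C₁ := (le_max_left _ _).trans (le_max_right _ _)
  have h4 : 0 ≤ C₁ := (le_max_right _ _).trans (le_max_right _ _)
  have hgood : (dat K hg R).Good C₁ := by
    refine ⟨⟨h4, g2, g3, g4, ?_, g7, g8, g9, ?_, ?_⟩, ?_⟩
    · intro x hx v
      rw [← norm_pos_iff, g5 x v]
      exact AbsoluteValue.pos v.1 (g6 x hx)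
    · intro x hx
      rw [(hln x hx).2]
      exact Real.log_nonneg (by exact_mod_cast (hln x hx).1)
    · intro ρ m hρ hdeg
      exact hCc ρ m hρ (h2.trans hdeg)
    · intro B hB
      refine le_trans ?_ (hCl (dat K hg R) hln0 (fun x hx => (hln x hx).2) B hB)
      apply mul_le_mul_of_nonneg_left _ (sq_nonneg _)
      linarith
  obtain ⟨n₀, hn₀⟩ := hMAINA R (dat K hg R) C₁ hgood (by rw [g1]; exact hd)
  obtain ⟨A, L, hA, hAL⟩ := hCo (dat K hg R) hln0 (fun x hx => (hln x hx).2) a ha C₁ h3 n₀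
  exact absurd (hn₀ A L hAL) (not_lt.2 hA)

theorem stmt_FINAL (hMAIN : Stmt_MAIN) (hSINT : Stmt_SINT) (hINST : Stmt_INST) : Stmt_FINAL := by
  intro K _ _ hd T hT S b I hI hS ⟨a, ha⟩
  obtain ⟨g, hg⟩ := hSINT K T hT
  obtain ⟨hdom, hfr, hded, hfq, hinf⟩ := hINST K g (T.integer K)
  apply hMAIN K g (T.integer K) hd
  by_cases hprime : ∃ p : Ideal (T.integer K), p.IsPrime ∧ p ≠ ⊥
  · obtain ⟨c, hc, α, hα, hα2⟩ := reduce hI hS.1 hS.2 hprime ha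
    exact ⟨α, hα2⟩
  · push Not at hprime
    exact ⟨fun _ => 0, fun p hp h0 => absurd (hprime p hp) h0⟩

end Pool.NS
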