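import Pool.Agent.Work.MP_b29d7f_ns.Interface3

/-! Block MAINA -/

set_option autoImplicit false

open Finset Filter Topology MeasureTheory

namespace Pool.NS

namespace MAINA_

open Data

variable {R : Type} [CommRing R] {P : Data R}

/-- a sequence of optimal sets -/
lemma exists_sq (hFRAME : Stmt_FRAME) {C₁ : ℝ} (hG : P.Good C₁)
    (h : ∀ n₀ : ℕ, ∃ (A : Finset R) (L : AddSubgroup R), P.Opt C₁ A L ∧ n₀ ≤ A.card) :
    Nonempty (Sq P) := by
  obtain ⟨C, c, K, n₀, hC, hc, hF⟩ := hFRAME R P C₁ hG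
  choose A L hAL hcard using h
  choose A' s j hA'card hA'opt hA'frame using fun l : ℕ =>
    hF (A (max n₀ l)) (L (max n₀ l)) (hAL _) (le_trans (le_max_left _ _) (hcard _))
  refine ⟨⟨C₁, C, c, K, A', fun l => L (max n₀ l), s, j, hG, hC, hc, hA'opt, hA'frame, ?_⟩⟩
  apply tendsto_atTop_mono (f := fun l : ℕ => (l : ℝ))
  · intro l
    rw [hA'card]
    exact_mod_cast le_trans (le_max_right _ _) (hcard (max n₀ l))
  · exact tendsto_natCast_atTop_atTop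

end MAINA_

open MAINA_ Data in
theorem stmt_MAINA (hFRAME : Stmt_FRAME) (hLIM1 : Stmt_LIM1) (hLIM2 : Stmt_LIM2) (hOS : Stmt_OS)
    (hRAD : Stmt_RAD) (hFLAC : Stmt_FLAC) (hHOLD : Stmt_HOLD) (hFLAR : Stmt_FLAR)
    (hFIN2 : Stmt_FIN2) (hFIN1 : Stmt_FIN1) : Stmt_MAINA := by
  classical
  intro R _ P C₁ hG hsum
  by_contra hcon
  push Not at hcon
  obtain ⟨S⟩ := exists_sq hFRAME hG hcon
  choose f hf using fun v => hLIM1 R P S v
  set φ : (v : P.Ω) → E (P.e v) → ℝ :=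
    fun v ξ => (P.e v : ℝ) * ∫ z, Real.log ‖ξ - z‖ * f v z with hφ
  have hLim : ∀ v, LimV S v (f v) (φ v) := fun v => hLIM2 R P S v (f v) (hf v)
  have hOne : ∀ v, OneSided (f v) := fun v => hOS R P S v (f v) (φ v) (hLim v)
  choose z₀ hz₀ using fun v =>
    hRAD (P.e v) (f v) (φ v) (S.good.e_eq v) (hLim v).dens (hOne v)
  by_cases hΩ : ∃ v₁ v₂ : P.Ω, v₁ ≠ v₂
  · obtain ⟨v₁, v₂, hne⟩ := hΩ
    by_cases hcx : ∃ v : P.Ω, P.e v = 2
    · obtain ⟨v, hv⟩ := hcx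
      obtain ⟨w, hw⟩ : ∃ w, w ≠ v := by
        by_cases h1 : v₁ = v
        · exact ⟨v₂, fun h2 => hne (h1.trans h2.symm)⟩
        · exact ⟨v₁, h1⟩
      exact hFIN2 R P S f φ z₀ hLim hz₀ w v hw
        (hFLAC (P.e v) (f v) (φ v) (z₀ v) hv (hLim v).dens (hz₀ v).sym)
    · push Not at hcx
      have he : ∀ v, P.e v = 1 := fun v => (S.good.e_eq v).resolve_right (hcx v)
      have hH := hHOLD R P S f φ z₀ hLim hz₀ v₁ v₂ hne (he v₁) (he v₂)
      exact hFIN2 R P S f φ z₀ hLim hz₀ v₁ v₂ hne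
        (hFLAR (P.e v₂) (f v₂) (φ v₂) (z₀ v₂) (he v₂) (hLim v₂).dens (hz₀ v₂) hH)
  · push Not at hΩ
    obtain ⟨v₁⟩ := hG.ne
    have hall : ∀ v, v = v₁ := fun v => hΩ v v₁
    have he : P.e v₁ = 2 := by
      have h1 : ∑ v, P.e v = P.e v₁ := by
        rw [Fintype.sum_eq_single v₁]
        intro v hv
        exact absurd (hall v) hv
      rcases hG.e_eq v₁ with h2 | h2
      · rw [h1, h2] at hsum; norm_num at hsum
      · exact h2
    exact hFIN1 R P S f φ z₀ hLim hz₀ v₁ hall he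

end Pool.NS
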