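import Pool.Agent.Work.MP_b29d7f_ns_helper12.REP

/-! Blocks PLC, LATB -/

set_option autoImplicit false

open Finset Filter Topology

namespace Pool.NS

namespace PLC_

open Data

variable {R : Type} [CommRing R] {P : Data R} (S : Sq P)

/-- degree of the scaled boxes -/
lemma deg_box (l : ℕ) {κ : ℝ} (hκ : 0 < κ) (k : ℤ) :
    P.deg (fun v => κ * S.s l v) (fun t => S.j l t + k)
      = Real.log (S.n l) + ((∑ v, (P.e v : ℝ)) * Real.log κ + (∑ t, P.lq t) * (k : ℝ)) := by
  have hdeg := (S.frame l).deg_eq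
  unfold Sq.n
  rw [← hdeg]
  unfold Data.deg
  rw [add_add_add_comm, Finset.sum_mul, Finset.sum_mul, ← Finset.sum_add_distrib,
    ← Finset.sum_add_distrib]
  congr 1
  · apply Finset.sum_congr rfl
    intro v _
    rw [Real.log_mul hκ.ne' (S.s_pos l v).ne']
    ring
  · apply Finset.sum_congr rfl
    intro t _
    push_cast
    ring

end PLC_

open PLC_ Data in
theorem stmt_PLC (hCNTL : Stmt_CNTL) : Stmt_PLC := by
  intro R _ P S κ r hκ
  obtain ⟨C, c, hc, h⟩ := hCNTL R P S.C₁ S.geo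
  set G : ℝ := (∑ v, (P.e v : ℝ)) * Real.log κ + (∑ t, P.lq t) * ((-(r : ℤ) : ℤ) : ℝ) with hG
  refine ⟨c * Real.exp G, by positivity, ?_⟩
  have h1 : ∀ᶠ l in atTop, C - G ≤ Real.log (S.n l) := S.tendsto_log_n.eventually_ge_atTop _
  filter_upwards [h1] with l hl
  intro z a
  have hdeg := deg_box S l hκ (-(r : ℤ))
  have hs : ∀ v, 0 < κ * S.s l v := fun v => mul_pos hκ (S.s_pos l v)
  obtain ⟨B, hBc, hB⟩ := h (fun v => κ * S.s l v) (fun t => S.j l t + -(r : ℤ)) hs
    (by rw [hdeg]; linarith) (fun v => S.s l v • z v) a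
  have hn := S.n_pos l
  rw [hdeg, Real.exp_add, Real.exp_log hn] at hBc
  have hBc' : c * Real.exp G * S.n l ≤ B.card := by
    refine le_trans (le_of_eq ?_) hBc
    rw [hG]; ring
  refine ⟨B, ?_, hBc', ?_⟩
  · rw [← Finset.card_pos]
    have : (0 : ℝ) < B.card := lt_of_lt_of_le (by positivity) hBc'
    exact_mod_cast this
  · intro x hx
    obtain ⟨h2, h3⟩ := hB x hx
    refine ⟨fun v => ?_, fun t => ?_⟩
    · have h4 := h2 v
      rw [S.norm_em_sub l x v (z v), mul_comm κ] at h4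
      exact le_of_mul_le_mul_left h4 (S.s_pos l v)
    · have h4 := h3 t
      rwa [← sub_eq_add_neg] at h4

open PLC_ REP_ Data in
theorem stmt_LATB (hPLC : Stmt_PLC) (hCNT : Stmt_CNT) : Stmt_LATB := by
  classical
  intro R _ P S W
  obtain ⟨c, hc, hPL⟩ := hPLC R P S (1 / 8) 0 (by norm_num)
  obtain ⟨C, hC, hCN⟩ := hCNT R P S.C₁ S.geo
  set κ : ℝ := Real.exp |W| + 1 with hκ
  have hκ0 : 0 < κ := by positivity
  set Kt : ℕ := ∑ t, ⌈|W| / P.lq t⌉₊ with hKt
  set G : ℝ := (∑ v, (P.e v : ℝ)) * Real.log κ + (∑ t, P.lq t) * (((Kt : ℕ) : ℤ) : ℝ) with hG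
  refine ⟨⌈C * (1 + Real.exp G) / c⌉₊, ?_⟩
  filter_upwards [hPL] with l hl
  intro F hF
  obtain ⟨B, hBne, hBc, hB⟩ := hl (fun _ => 0) 0
  have hn := S.n_pos l
  have hn1 := S.one_le_n l
  -- the sums are different
  have hinj : Set.InjOn (fun p : R × R => p.1 + p.2) (F ×ˢ B : Finset (R × R)) := by
    intro p hp q hq hpq
    rw [Finset.mem_coe, Finset.mem_product] at hp hq
    simp only at hpq
    have h1 : p.1 - q.1 = q.2 - p.2 := by
      rw [sub_eq_sub_iff_add_eq_add, hpq, add_comm]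
    have hL : q.2 - p.2 ∈ S.L l := by
      rw [← h1]; exact (S.L l).sub_mem (hF _ hp.1).1 (hF _ hq.1).1
    have h0 := not_small S l hL (fun v => ?_) (fun t => ?_)
    · have h2 : p.2 = q.2 := (sub_eq_zero.1 h0).symm
      have h3 : p.1 = q.1 := by rw [h0, sub_eq_zero] at h1; exact h1
      exact Prod.ext h3 h2
    · rw [S.X_sub]
      have h2 := (hB _ hp.2).1 v
      have h3 := (hB _ hq.2).1 v
      rw [sub_zero] at h2 h3
      have h4 := norm_sub_le (S.X l q.2 v) (S.X l p.2 v)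
      linarith
    · have h2 := (hB _ hp.2).2 t
      have h3 := (hB _ hq.2).2 t
      rw [Nat.cast_zero, sub_zero] at h2 h3
      exact S.geo.nearT_sub h3 h2
  have hcard : (F ×ˢ B).card = ((F ×ˢ B).image fun p : R × R => p.1 + p.2).card :=
    (Finset.card_image_of_injOn hinj).symm
  have hup := hCN (fun v => κ * S.s l v) (fun t => S.j l t + ((Kt : ℕ) : ℤ))
    (fun v => mul_pos hκ0 (S.s_pos l v)) (fun v => S.s l v • (0 : E (P.e v))) 0
    ((F ×ˢ B).image fun p : R × R => p.1 + p.2) ?_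
  · rw [← hcard, Finset.card_product, deg_box S l hκ0, Real.exp_add, Real.exp_log hn] at hup
    push_cast at hup
    have h1 : (F.card : ℝ) * (c * S.n l) ≤ C * (1 + S.n l * Real.exp G) := by
      refine le_trans (mul_le_mul_of_nonneg_left hBc (Nat.cast_nonneg _)) (hup.trans (le_of_eq ?_))
      rw [hG]; push_cast; ring
    have h2 : C * (1 + S.n l * Real.exp G) ≤ C * (1 + Real.exp G) * S.n l := by
      have := Real.exp_pos G
      nlinarith
    have h3 : (F.card : ℝ) * c * S.n l ≤ C * (1 + Real.exp G) * S.n l := by linarith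
    have h4 := le_of_mul_le_mul_right h3 hn
    have h5 : (F.card : ℝ) ≤ C * (1 + Real.exp G) / c := by rw [le_div_iff₀ hc]; exact h4
    exact_mod_cast h5.trans (Nat.le_ceil _)
  · intro x hx
    obtain ⟨p, hp, rfl⟩ := Finset.mem_image.1 hx
    rw [Finset.mem_product] at hp
    obtain ⟨hμL, hμW⟩ := hF _ hp.1
    refine ⟨fun v => ?_, fun t => ?_⟩
    · rw [S.norm_em_sub l _ v 0, sub_zero, mul_comm κ]
      apply mul_le_mul_of_nonneg_left _ (S.s_pos l v).le
      rw [S.X_add]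
      have h2 := (hB _ hp.2).1 v
      rw [sub_zero] at h2
      have h3 := (S.norm_X_le l p.1 v).trans (Real.exp_le_exp.2 (hμW.trans (le_abs_self W)))
      have h4 := norm_add_le (S.X l p.1 v) (S.X l p.2 v)
      rw [hκ]
      linarith
    · have h1 : ⌈|W| / P.lq t⌉₊ ≤ Kt :=
        Finset.single_le_sum (f := fun t => ⌈|W| / P.lq t⌉₊) (fun _ _ => Nat.zero_le _)
          (Finset.mem_univ t)
      have h2 : P.NearT t (S.j l t + ((Kt : ℕ) : ℤ)) p.1 0 :=
        NearT.mono (by have : ((⌈|W| / P.lq t⌉₊ : ℕ) : ℤ) ≤ ((Kt : ℕ) : ℤ) := by exact_mod_cast h1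
                       linarith) (near_of_ex S l hμW t)
      have h3 : P.NearT t (S.j l t + ((Kt : ℕ) : ℤ)) p.2 0 := by
        refine NearT.mono ?_ ((hB _ hp.2).2 t)
        rw [Nat.cast_zero, sub_zero]
        linarith [Int.natCast_nonneg Kt]
      have h4 : P.NearT t (S.j l t + ((Kt : ℕ) : ℤ)) (-p.2) 0 := by
        have := S.geo.nearT_sub (NearT.refl t _ (0 : R)) h3
        rwa [zero_sub] at this
      have h5 := S.geo.nearT_sub h2 h4
      rwa [sub_neg_eq_add] at h5

end Pool.NS
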