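import Pool.Agent.Work.MP_b29d7f_ns.Interface3

/-! Block REP -/

set_option autoImplicit false

open Finset Filter Topology

namespace Pool.NS

namespace REP_

open Data

variable {R : Type} [CommRing R] {P : Data R} (S : Sq P)

/-- level bound from the excess -/
lemma near_of_ex (l : ℕ) {x : R} {W : ℝ} (hx : S.ex l x ≤ W) (t : P.T) :
    P.NearT t (S.j l t + (⌈|W| / P.lq t⌉₊ : ℕ)) x 0 := by
  by_cases h0 : x = 0
  · left; exact h0
  right
  rw [sub_zero]
  have h1 := S.lev_le_ex l h0 t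
  have hq := S.good.lq_pos t
  have h2 : ((max (P.lev t x - S.j l t) 0 : ℤ) : ℝ) ≤ |W| / P.lq t := by
    rw [le_div_iff₀ hq, mul_comm]
    exact h1.trans (hx.trans (le_abs_self W))
  have h4 : ((P.lev t x - S.j l t : ℤ) : ℝ) ≤ ((max (P.lev t x - S.j l t) 0 : ℤ) : ℝ) := by
    exact_mod_cast le_max_left _ _
  have h5 := Nat.le_ceil (|W| / P.lq t)
  have h3 : ((P.lev t x - S.j l t : ℤ) : ℝ) ≤ ((⌈|W| / P.lq t⌉₊ : ℕ) : ℝ) :=
    h4.trans (h2.trans h5)
  have h6 : P.lev t x - S.j l t ≤ ((⌈|W| / P.lq t⌉₊ : ℕ) : ℤ) := by exact_mod_cast h3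
  linarith

/-- `ln` in scaled coordinates -/
lemma ln_eq (l : ℕ) {x : R} (hx : x ≠ 0) :
    P.ln x = Real.log (S.n l) + (∑ v, (P.e v : ℝ) * Real.log ‖S.X l x v‖
      + ∑ t, P.lq t * ((P.lev t x - S.j l t : ℤ) : ℝ)) := by
  have hdeg := (S.frame l).deg_eq
  unfold Sq.n
  rw [← hdeg]
  unfold Data.ln Data.deg
  rw [add_add_add_comm, ← Finset.sum_add_distrib, ← Finset.sum_add_distrib]
  congr 1
  · apply Finset.sum_congr rfl
    intro v _
    have h1 := S.s_pos l v
    have h2 : S.X l x v ≠ 0 := by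
      unfold Sq.X
      rw [smul_ne_zero_iff]
      exact ⟨(inv_pos.2 h1).ne', S.good.em_ne x hx v⟩
    rw [S.norm_em l, Real.log_mul h1.ne' (norm_ne_zero_iff.2 h2)]
    ring
  · apply Finset.sum_congr rfl
    intro t _
    push_cast
    ring

/-- small elements of `L` are zero -/
lemma not_small (l : ℕ) {x : R} (hx : x ∈ S.L l) (h1 : ∀ v, ‖S.X l x v‖ ≤ 1 / 2)
    (h2 : ∀ t, P.NearT t (S.j l t) x 0) : x = 0 := by
  by_contra h0
  have hb := (S.opt l).big x hx h0
  have hn : Real.log (S.A l).card = Real.log (S.n l) := rfl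
  rw [hn, ln_eq S l h0] at hb
  obtain ⟨v⟩ := S.good.ne
  have h3 : ∑ v, (P.e v : ℝ) * Real.log ‖S.X l x v‖ ≤ ∑ v, (P.e v : ℝ) * Real.log (1 / 2) := by
    apply Finset.sum_le_sum
    intro v _
    apply mul_le_mul_of_nonneg_left _ (Nat.cast_nonneg _)
    have h2 : S.X l x v ≠ 0 := by
      unfold Sq.X
      rw [smul_ne_zero_iff]
      exact ⟨(inv_pos.2 (S.s_pos l v)).ne', S.good.em_ne x h0 v⟩
    exact Real.log_le_log (norm_pos_iff.2 h2) (h1 v)
  have h4 : ∑ t, P.lq t * ((P.lev t x - S.j l t : ℤ) : ℝ) ≤ 0 := by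
    apply Finset.sum_nonpos
    intro t _
    have h5 : P.lev t x ≤ S.j l t := by
      have := (h2 t).resolve_left h0
      rwa [sub_zero] at this
    apply mul_nonpos_of_nonneg_of_nonpos (S.good.lq_pos t).le
    have : P.lev t x - S.j l t ≤ 0 := by linarith
    exact_mod_cast this
  have h5 : ∑ v, (P.e v : ℝ) * Real.log (1 / 2) < 0 := by
    rw [← Finset.sum_mul]
    apply mul_neg_of_pos_of_neg
    · have h6 := S.geo.e_ge v
      have h7 : (P.e v : ℝ) ≤ ∑ v, (P.e v : ℝ) :=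
        Finset.single_le_sum (f := fun v => (P.e v : ℝ)) (fun _ _ => Nat.cast_nonneg _)
          (Finset.mem_univ v)
      linarith
    · apply Real.log_neg <;> norm_num
  linarith

end REP_

open REP_ Data in
theorem stmt_REP (hTAIL : Stmt_TAIL) (hPLC : Stmt_PLC) : Stmt_REP := by
  classical
  intro R _ P S lam hlam W
  obtain ⟨C, hC1, -, hC⟩ := hTAIL R P S
  set B₁ : ℝ := |W| + 1 + Real.exp C with hB₁
  have hB1 : 1 ≤ B₁ := by
    have := abs_nonneg W
    have := Real.exp_pos C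
    linarith
  have hb₁ : 0 ≤ Real.log B₁ := Real.log_nonneg hB1
  set Kt : P.T → ℕ := fun t => ⌈|W| / P.lq t⌉₊ + ⌈|C| / P.lq t⌉₊ with hKt
  set G : ℝ := ∑ v, (P.e v : ℝ) * Real.log B₁ + ∑ t, P.lq t * (Kt t : ℝ) with hG
  refine ⟨Real.exp (-G), C, Real.exp_pos _, ?_⟩
  intro κ r hκ hκ1
  have hκ' : 0 < min κ (1 / 4) := lt_min hκ (by norm_num)
  obtain ⟨c, hc, hPL⟩ := hPLC R P S (min κ (1 / 4)) r hκ'
  filter_upwards [hPL, hC (c / 4) (by positivity), hlam.few (c / 4) (by positivity)]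
    with l hl hl1 hl2
  intro z b hz hb hbox
  obtain ⟨B, -, hBcard, hB⟩ := hl z b
  have hn := S.n_pos l
  choose f hfA hfL using (S.opt l).sur
  -- bad sets
  set Bad1 := (S.A l).filter fun x => C ≤ S.ex l x with hBad1
  set Bad2 := (S.A l).filter fun x => lam l < S.Ph l x with hBad2
  have hc1 : (Bad1.card : ℝ) ≤ c / 4 * S.n l := by
    refine le_trans ?_ hl1
    have h1 : ∑ x ∈ Bad1, (1 : ℝ) ≤ ∑ x ∈ Bad1, S.ex l x := by
      apply Finset.sum_le_sum
      intro x hx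
      exact hC1.trans (Finset.mem_filter.1 hx).2
    rw [Finset.sum_const, nsmul_eq_mul, mul_one] at h1
    exact h1
  have hinj : Set.InjOn f B := by
    intro y hy y' hy' hyy'
    have hy1 := hB y hy
    have hy2 := hB y' hy'
    have hL : y - y' ∈ S.L l := by
      have h1 := (S.L l).sub_mem (hfL y) (hfL y')
      rw [hyy'] at h1
      have h2 : y - f y' - (y' - f y') = y - y' := by ring
      rwa [h2] at h1
    have h0 := not_small S l hL (fun v => ?_) (fun t => ?_)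
    · exact sub_eq_zero.1 h0
    · rw [S.X_sub]
      have h1 := hy1.1 v
      have h2 := hy2.1 v
      have h3 : S.X l y v - S.X l y' v = (S.X l y v - z v) - (S.X l y' v - z v) := by abel
      rw [h3]
      have h4 := norm_sub_le (S.X l y v - z v) (S.X l y' v - z v)
      have h5 : min κ (1 / 4) ≤ 1 / 4 := min_le_right _ _
      linarith
    · have h1 : P.NearT t (S.j l t - r) y y' :=
        S.geo.nearT_trans (hy1.2 t) (S.geo.nearT_symm (hy2.2 t))
      rcases h1 with h1 | h1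
      · left; rw [h1, sub_self]
      · right; rw [sub_zero]; have : (0 : ℤ) ≤ r := Int.natCast_nonneg r; linarith
  have hex : ∃ y ∈ B, y ∉ Bad2 ∧ f y ∉ Bad1 ∧ f y ∉ Bad2 := by
    by_contra hcon
    push Not at hcon
    have hsub : B ⊆ Bad2 ∪ B.filter fun y => f y ∈ Bad1 ∪ Bad2 := by
      intro y hy
      by_cases h1 : y ∈ Bad2
      · exact Finset.mem_union_left _ h1
      · apply Finset.mem_union_right
        apply Finset.mem_filter.2
        by_cases h2 : f y ∈ Bad1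
        · exact ⟨hy, Finset.mem_union_left _ h2⟩
        · exact ⟨hy, Finset.mem_union_right _ (hcon y hy h1 h2)⟩
    have h1 : (B.filter fun y => f y ∈ Bad1 ∪ Bad2).card ≤ (Bad1 ∪ Bad2).card := by
      apply Finset.card_le_card_of_injOn f
      · intro y hy
        exact (Finset.mem_filter.1 hy).2
      · exact hinj.mono fun y hy => (Finset.mem_filter.1 hy).1
    have h2 := Finset.card_le_card hsub
    have h3 := Finset.card_union_le Bad2 (B.filter fun y => f y ∈ Bad1 ∪ Bad2)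
    have h4 := Finset.card_union_le Bad1 Bad2
    have h5 : (B.card : ℝ) ≤ Bad2.card + (Bad1.card + Bad2.card) := by
      exact_mod_cast h2.trans (h3.trans (Nat.add_le_add_left (h1.trans h4) _))
    nlinarith
  obtain ⟨y, hyB, hy2, hf1, hf2⟩ := hex
  obtain ⟨hyX, hyT⟩ := hB y hyB
  have hκle : min κ (1 / 4) ≤ κ := min_le_left _ _
  have hyPh : lam l < S.Ph l y := hbox y (fun v => (hyX v).trans hκle) hyT
  have hyA : y ∉ S.A l := fun h => hy2 (Finset.mem_filter.2 ⟨h, hyPh⟩)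
  have hne : y ≠ f y := fun h => hyA (h ▸ hfA y)
  have hexa : S.ex l (f y) ≤ C := by
    by_contra h
    exact hf1 (Finset.mem_filter.2 ⟨hfA y, (not_le.1 h).le⟩)
  have hPha : S.Ph l (f y) ≤ lam l := by
    by_contra h
    exact hf2 (Finset.mem_filter.2 ⟨hfA y, not_le.1 h⟩)
  refine ⟨y, f y, fun v => (hyX v).trans hκle, hyT, hfA y, hne, hfL y, hexa, hPha, ?_⟩
  intro v
  set μ := y - f y with hμ
  have hμ0 : μ ≠ 0 := sub_ne_zero.2 hne
  have hbig := (S.opt l).big μ (hfL y) hμ0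
  have hnn : Real.log (S.A l).card = Real.log (S.n l) := rfl
  rw [hnn, ln_eq S l hμ0] at hbig
  have hXne : ∀ w, 0 < ‖S.X l μ w‖ := by
    intro w
    rw [norm_pos_iff]
    unfold Sq.X
    rw [smul_ne_zero_iff]
    exact ⟨(inv_pos.2 (S.s_pos l w)).ne', S.good.em_ne μ hμ0 w⟩
  have hX : ∀ w, Real.log ‖S.X l μ w‖ ≤ Real.log B₁ := by
    intro w
    apply Real.log_le_log (hXne w)
    rw [hμ, S.X_sub]
    have h1 := norm_sub_le (S.X l y w) (S.X l (f y) w)
    have h2 : ‖S.X l y w‖ ≤ |W| + 1 := by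
      have h3 : S.X l y w = (S.X l y w - z w) + z w := by abel
      rw [h3]
      have h4 := norm_add_le (S.X l y w - z w) (z w)
      have h5 := hyX w
      have h6 := hz w
      have h7 := le_abs_self W
      have h8 : min κ (1 / 4) ≤ 1 := (min_le_left _ _).trans hκ1
      linarith
    have h3 : ‖S.X l (f y) w‖ ≤ Real.exp C :=
      (S.norm_X_le l (f y) w).trans (Real.exp_le_exp.2 hexa)
    linarith
  have hlev : ∀ t, ((P.lev t μ - S.j l t : ℤ) : ℝ) ≤ Kt t := by
    intro t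
    have h1 : P.NearT t (S.j l t + (Kt t : ℕ)) b 0 := by
      refine NearT.mono ?_ (near_of_ex S l hb t)
      rw [hKt]; push_cast; linarith [Int.natCast_nonneg ⌈|C| / P.lq t⌉₊]
    have h2 : P.NearT t (S.j l t + (Kt t : ℕ)) (f y) 0 := by
      refine NearT.mono ?_ (near_of_ex S l hexa t)
      rw [hKt]; push_cast; linarith [Int.natCast_nonneg ⌈|W| / P.lq t⌉₊]
    have h3 : P.NearT t (S.j l t + (Kt t : ℕ)) y b := by
      refine NearT.mono ?_ (hyT t)
      linarith [Int.natCast_nonneg r, Int.natCast_nonneg (Kt t)]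
    have h4 := S.geo.nearT_sub (S.geo.nearT_trans h3 h1) h2
    have h5 := h4.resolve_left hμ0
    rw [sub_zero] at h5
    have h6 : P.lev t μ - S.j l t ≤ (Kt t : ℕ) := by linarith
    exact_mod_cast h6
  have h1 : ∑ w, (P.e w : ℝ) * Real.log ‖S.X l μ w‖
      ≤ (P.e v : ℝ) * Real.log ‖S.X l μ v‖ + ∑ w, (P.e w : ℝ) * Real.log B₁ := by
    rw [← Finset.add_sum_erase _ _ (Finset.mem_univ v)]
    have h2 : ∑ w ∈ Finset.univ.erase v, (P.e w : ℝ) * Real.log ‖S.X l μ w‖
        ≤ ∑ w ∈ Finset.univ.erase v, (P.e w : ℝ) * Real.log B₁ :=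
      Finset.sum_le_sum fun w _ => mul_le_mul_of_nonneg_left (hX w) (Nat.cast_nonneg _)
    have h3 : ∑ w ∈ Finset.univ.erase v, (P.e w : ℝ) * Real.log B₁
        ≤ ∑ w, (P.e w : ℝ) * Real.log B₁ :=
      Finset.sum_le_sum_of_subset_of_nonneg (Finset.erase_subset _ _)
        fun w _ _ => mul_nonneg (Nat.cast_nonneg _) hb₁
    linarith
  have h2 : ∑ t, P.lq t * ((P.lev t μ - S.j l t : ℤ) : ℝ) ≤ ∑ t, P.lq t * (Kt t : ℝ) :=
    Finset.sum_le_sum fun t _ => mul_le_mul_of_nonneg_left (hlev t) (S.good.lq_pos t).le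
  have h3 : -G ≤ (P.e v : ℝ) * Real.log ‖S.X l μ v‖ := by
    rw [hG]; linarith
  have hG0 : 0 ≤ G := by
    rw [hG]
    apply add_nonneg
    · exact Finset.sum_nonneg fun w _ => mul_nonneg (Nat.cast_nonneg _) hb₁
    · exact Finset.sum_nonneg fun t _ => mul_nonneg (S.good.lq_pos t).le (Nat.cast_nonneg _)
  have h4 : -G ≤ Real.log ‖S.X l μ v‖ := by
    by_contra h5
    push Not at h5
    have h6 := S.geo.e_ge v
    nlinarith
  have h5 := Real.exp_le_exp.2 h4
  rwa [Real.exp_log (hXne v)] at h5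

end Pool.NS
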