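import Pool.Agent.Work.MP_b29d7f_ns_helper20.SINT

/-!
# The main theorem in terms of the valuations of `K`
-/

set_option autoImplicit false

open Finset NumberField IsDedekindDomain

namespace Pool.NS

open Pool.Agent.Work.MP_b29d7f_nt.Ded

namespace VAL_

variable (K : Type) [Field K] [NumberField K] (g : 𝓞 K) (R : Type) [CommRing R]
    [Algebra (𝓞 K) R] [Algebra R K] [hI : IsSInt K g R]

/-- the prime of `𝓞 K` below a prime of `R` -/
lemma exists_below (hINST : Stmt_INST) {p : Ideal R} (hp : p.IsPrime) (h0 : p ≠ ⊥) :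
    ∃ v : HeightOneSpectrum (𝓞 K), g ∉ v.asIdeal ∧
      (∀ x : 𝓞 K, algebraMap (𝓞 K) R x ∈ p → x ∈ v.asIdeal) ∧
      (∀ (x : R) (n : ℕ), x ∈ p ^ n ↔ v.valuation K (algebraMap R K x) ≤ WithZero.exp (-(n : ℤ))) ∧
      (∀ (x : R) (n : ℕ), ∃ y : 𝓞 K, x - algebraMap (𝓞 K) R y ∈ p ^ n) := by
  obtain ⟨hdom, hfr, hded, hfq, hinf⟩ := hINST K g R
  have htower := hI.tower
  have hloc : IsLocalization (Submonoid.powers g) R := hI.away
  have hgu : IsUnit (algebraMap (𝓞 K) R g) := IsLocalization.Away.algebraMap_isUnit g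
  have hM : Submonoid.powers g ≤ nonZeroDivisors (𝓞 K) :=
    powers_le_nonZeroDivisors_of_noZeroDivisors hI.ne
  have hinj : Function.Injective (algebraMap (𝓞 K) R) := IsLocalization.injective R hM
  set q : Ideal (𝓞 K) := p.comap (algebraMap (𝓞 K) R) with hq
  have hmap : q.map (algebraMap (𝓞 K) R) = p := IsLocalization.map_comap (Submonoid.powers g) R p
  have hq0 : q ≠ ⊥ := by
    intro h
    rw [h, Ideal.map_bot] at hmap
    exact h0 hmap.symm
  have hqp : q.IsPrime := Ideal.IsPrime.comap _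
  set v : HeightOneSpectrum (𝓞 K) := ⟨q, hqp, hq0⟩ with hv
  have hgv : g ∉ v.asIdeal := by
    intro h
    have h1 : algebraMap (𝓞 K) R g ∈ p := h
    exact hp.ne_top (Ideal.eq_top_of_isUnit_mem _ h1 hgu)
  have hvg : v.valuation K (algebraMap (𝓞 K) K g) = 1 :=
    (HeightOneSpectrum.valuation_eq_one_iff_notMem (K := K) v).2 hgv
  -- powers
  have hpow : ∀ (y : 𝓞 K) (n : ℕ), algebraMap (𝓞 K) R y ∈ p ^ n ↔ y ∈ q ^ n := by
    intro y n
    rw [← hmap, ← Ideal.map_pow]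
    constructor
    · intro h
      rw [IsLocalization.mem_map_algebraMap_iff (Submonoid.powers g)] at h
      obtain ⟨⟨⟨i, hi⟩, ⟨s, ⟨m, hm⟩⟩⟩, hx⟩ := h
      simp only at hx hm
      rw [← map_mul] at hx
      have h1 := hinj hx
      have h2 : v.valuation K (algebraMap (𝓞 K) K (y * s)) ≤ WithZero.exp (-(n : ℤ)) := by
        rw [h1, HeightOneSpectrum.valuation_of_algebraMap,
          HeightOneSpectrum.intValuation_le_pow_iff_mem]
        exact hi
      rw [map_mul, map_mul, ← hm, map_pow, map_pow, hvg, one_pow, mul_one,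
        HeightOneSpectrum.valuation_of_algebraMap,
        HeightOneSpectrum.intValuation_le_pow_iff_mem] at h2
      exact h2
    · exact fun h => Ideal.mem_map_of_mem _ h
  refine ⟨v, hgv, fun x hx => hx, ?_, ?_⟩
  · intro x n
    obtain ⟨⟨y, ⟨s, ⟨m, hm⟩⟩⟩, hx⟩ := IsLocalization.surj (Submonoid.powers g) x
    simp only at hx hm
    have h1 : x * algebraMap (𝓞 K) R g ^ m = algebraMap (𝓞 K) R y := by
      rw [← hx, ← hm, map_pow]
    have h2 : x ∈ p ^ n ↔ algebraMap (𝓞 K) R y ∈ p ^ n := by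
      rw [← h1]
      exact (Ideal.mul_unit_mem_iff_mem _ (hgu.pow m)).symm
    have h3 : v.valuation K (algebraMap R K x) = v.valuation K (algebraMap (𝓞 K) K y) := by
      rw [IsScalarTower.algebraMap_apply (𝓞 K) R K, ← h1, map_mul, map_mul, map_pow, map_pow,
        ← IsScalarTower.algebraMap_apply (𝓞 K) R K, hvg, one_pow, mul_one]
    rw [h2, h3, hpow, HeightOneSpectrum.valuation_of_algebraMap,
      HeightOneSpectrum.intValuation_le_pow_iff_mem]
  · intro x n
    obtain ⟨⟨y, ⟨s, ⟨m, hm⟩⟩⟩, hx⟩ := IsLocalization.surj (Submonoid.powers g) x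
    simp only at hx hm
    have h1 : x * algebraMap (𝓞 K) R g ^ m = algebraMap (𝓞 K) R y := by
      rw [← hx, ← hm, map_pow]
    -- inverse of g modulo q ^ n
    have hmax : q.IsMaximal := hqp.isMaximal hq0
    have hcop : IsCoprime (Ideal.span {g}) (q ^ n) := by
      apply IsCoprime.pow_right
      obtain ⟨c, i, hi, hci⟩ := hmax.exists_inv hgv
      rw [Ideal.isCoprime_iff_exists]
      exact ⟨c * g, Ideal.mem_span_singleton'.2 ⟨c, rfl⟩, i, hi, hci⟩
    obtain ⟨i, hi, j, hj, hij⟩ := Ideal.isCoprime_iff_exists.1 hcop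
    obtain ⟨c, rfl⟩ := Ideal.mem_span_singleton'.1 hi
    refine ⟨y * c ^ m, ?_⟩
    have h2 : algebraMap (𝓞 K) R (c * g) = 1 - algebraMap (𝓞 K) R j := by
      rw [← map_one (algebraMap (𝓞 K) R), ← map_sub]
      congr 1
      rw [← hij]; ring
    have h3 : x - algebraMap (𝓞 K) R (y * c ^ m)
        = x * (1 - (1 - algebraMap (𝓞 K) R j) ^ m) := by
      rw [← h2, map_mul, ← h1, map_mul, map_pow]
      ring
    rw [h3]
    apply Ideal.mul_mem_left
    have h4 : algebraMap (𝓞 K) R j ∈ p ^ n := (hpow j n).2 hj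
    rw [← Ideal.Quotient.eq_zero_iff_mem, map_sub, map_one, map_pow, map_sub, map_one,
      Ideal.Quotient.eq_zero_iff_mem.2 h4, sub_zero, one_pow, sub_self]

end VAL_

/-- the main theorem in terms of valuations -/
def Stmt_VAL : Prop :=
  ∀ (K : Type) [Field K] [NumberField K], 2 ≤ Module.finrank ℚ K →
    ∀ E : Set (HeightOneSpectrum (𝓞 K)), E.Finite → ∀ S : Set K,
    (∀ v ∉ E, ∀ s ∈ S, v.valuation K s ≤ 1) →
    (∀ v ∉ E, ∀ (x : 𝓞 K) (n : ℕ), ∃ s ∈ S,
      v.valuation K (s - algebraMap (𝓞 K) K x) ≤ WithZero.exp (-(n : ℤ))) →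
    ¬ ∃ a : ℕ → K, (∀ k, a k ∈ S) ∧ ∀ v ∉ E, ∀ k, ∀ s ∈ S,
      v.valuation K (∏ i ∈ Finset.range k, (s - a i))
        ≤ v.valuation K (∏ i ∈ Finset.range k, (a k - a i))

open VAL_ in
theorem stmt_VAL (hMAIN : Stmt_MAIN) (hINST : Stmt_INST) : Stmt_VAL := by
  classical
  intro K _ _ hd E hE S hS hdense ⟨a, haS, ha⟩
  obtain ⟨g, hg⟩ := stmt_SINT K E hE
  obtain ⟨hdom, hfr, hded, hfq, hinf⟩ := hINST K g (E.integer K)
  have hR : ∀ s ∈ S, ∀ v ∉ E, v.valuation K s ≤ 1 := fun s hs v hv => hS v hv s hs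
  set S' : Set (E.integer K) := {x | (x : K) ∈ S} with hS'
  set a' : ℕ → E.integer K := fun k => ⟨a k, fun v hv => hR _ (haS k) v hv⟩ with ha'
  have hcoe : ∀ x : E.integer K, algebraMap (E.integer K) K x = (x : K) := fun x => rfl
  -- the primes
  have hbelow : ∀ p : Ideal (E.integer K), p.IsPrime → p ≠ ⊥ → ∃ v : HeightOneSpectrum (𝓞 K),
      v ∉ E ∧
      (∀ (x : E.integer K) (n : ℕ), x ∈ p ^ n ↔ v.valuation K (x : K) ≤ WithZero.exp (-(n : ℤ))) ∧
      (∀ (x : E.integer K) (n : ℕ), ∃ y : 𝓞 K,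
        x - algebraMap (𝓞 K) (E.integer K) y ∈ p ^ n) := by
    intro p hp h0
    obtain ⟨v, hgv, hv1, hv2, hv3⟩ := exists_below K g (E.integer K) hINST hp h0
    refine ⟨v, ?_, hv2, hv3⟩
    intro hvE
    obtain ⟨b, hb0, hbv, hbw⟩ := SINT_.exists_gen K v
    have hbK : algebraMap (𝓞 K) K b ≠ 0 := by
      rwa [Ne, FaithfulSMul.algebraMap_eq_zero_iff]
    have hinv : ∀ w ∉ E, w.valuation K (algebraMap (𝓞 K) K b)⁻¹ ≤ 1 := by
      intro w hw
      have h1 : w ≠ v := fun h => hw (h ▸ hvE)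
      have h2 := (HeightOneSpectrum.valuation_eq_one_iff_notMem (K := K) w).2 (hbw w h1)
      rw [map_inv₀, h2, inv_one]
    set c : E.integer K := ⟨(algebraMap (𝓞 K) K b)⁻¹, hinv⟩ with hc
    have h1 := (hv2 c 0).1 (by rw [pow_zero, Ideal.one_eq_top]; trivial)
    have h2 : v.valuation K (algebraMap (𝓞 K) K b) < 1 :=
      (HeightOneSpectrum.valuation_lt_one_iff_mem (K := K) v b).2 hbv
    have h3 : v.valuation K (algebraMap (E.integer K) K c)
        = (v.valuation K (algebraMap (𝓞 K) K b))⁻¹ := by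
      rw [hcoe, hc]; exact map_inv₀ _ _
    rw [h3] at h1
    simp only [Nat.cast_zero, neg_zero, WithZero.exp_zero] at h1
    have h4 : v.valuation K (algebraMap (𝓞 K) K b) ≠ 0 := (Valuation.ne_zero_iff _).2 hbK
    have h5 := (inv_le_one₀ (zero_lt_iff.2 h4)).1 h1
    exact absurd h2 (not_lt.2 h5)
  apply hMAIN K g (E.integer K) hd
  by_cases hprime : ∃ p : Ideal (E.integer K), p.IsPrime ∧ p ≠ ⊥
  swap
  · push Not at hprime
    exact ⟨fun _ => 0, fun p hp h0 => absurd (hprime p hp) h0⟩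
  have hdens : ∀ p : Ideal (E.integer K), p.IsPrime → p ≠ ⊥ → ∀ x : E.integer K,
      x - 0 ∈ (⊤ : Ideal (E.integer K)) → ∀ n : ℕ, ∃ s ∈ S', s - x ∈ p ^ n := by
    intro p hp h0 x _ n
    obtain ⟨v, hvE, hv2, hv3⟩ := hbelow p hp h0
    obtain ⟨y, hy⟩ := hv3 x n
    obtain ⟨s, hs, hsv⟩ := hdense v hvE y n
    refine ⟨⟨s, fun w hw => hR s hs w hw⟩, hs, ?_⟩
    have h1 : (⟨s, fun w hw => hR s hs w hw⟩ : E.integer K) - algebraMap (𝓞 K) (E.integer K) y
        ∈ p ^ n := (hv2 _ n).2 hsv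
    have h2 := (p ^ n).sub_mem h1 hy
    have h3 : (⟨s, fun w hw => hR s hs w hw⟩ : E.integer K) - x
        = (⟨s, fun w hw => hR s hs w hw⟩ : E.integer K) - algebraMap (𝓞 K) (E.integer K) y
          - (x - algebraMap (𝓞 K) (E.integer K) y) := by ring
    rw [h3]; exact h2
  have hord : ∀ p : Ideal (E.integer K), p.IsPrime → p ≠ ⊥ → IsPOrdering S' p a' := by
    intro p hp h0
    obtain ⟨v, hvE, hv2, hv3⟩ := hbelow p hp h0
    refine ⟨fun k => haS k, fun k s hs => ?_⟩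
    rw [val_le_val_iff]
    intro n hn
    rw [hv2] at hn ⊢
    have h1 := ha v hvE k s hs
    have h2 : ((∏ i ∈ Finset.range k, (s - a' i) : E.integer K) : K)
        = ∏ i ∈ Finset.range k, ((s : K) - a i) := by
      rw [← hcoe, map_prod]
      rfl
    have h3 : ((∏ i ∈ Finset.range k, (a' k - a' i) : E.integer K) : K)
        = ∏ i ∈ Finset.range k, (a k - a i) := by
      rw [← hcoe, map_prod]
      rfl
    rw [h3] at hn
    rw [h2]
    exact h1.trans hn
  obtain ⟨c, hc, α, hα, hα2⟩ := reduce (S := S') (b := 0) (I := ⊤) (a := a') top_ne_bot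
    (fun s _ => Submodule.mem_top) hdens hprime hord
  exact ⟨α, hα2⟩

end Pool.NS
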