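import Pool.Agent.Work.MP_b29d7f_ns_helper12.FRAME
import Pool.Agent.Work.MP_b29d7f_ns_helper12.HRAD
import Pool.Agent.Work.MP_b29d7f_ns_helper12.MAIN
import Pool.Agent.Work.MP_b29d7f_ns_helper12.MAINA
import Pool.Agent.Work.MP_b29d7f_ns_helper12.PLC
import Pool.Agent.Work.MP_b29d7f_ns_helper12.REP
import Pool.Agent.Work.MP_b29d7f_ns_helper12.VAL
import Pool.Agent.Work.MP_b29d7f_ns_helper17.MERK
import Pool.Agent.Work.MP_b29d7f_ns_helper17.MK1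
import Pool.Agent.Work.MP_b29d7f_ns_helper17.RES1
import Pool.Agent.Work.MP_b29d7f_ns_helper17.RES23
import Pool.Agent.Work.MP_b29d7f_ns_helper17.T1
import Pool.Agent.Work.MP_b29d7f_ns_helper18.CHK
import Pool.Agent.Work.MP_b29d7f_ns_helper18.GEO2
import Pool.Agent.Work.MP_b29d7f_ns_helper18.MERR
import Pool.Agent.Work.MP_b29d7f_ns_helper18.MK2
import Pool.Agent.Work.MP_b29d7f_ns_helper19.COMP1
import Pool.Agent.Work.MP_b29d7f_ns_helper19.HOLD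
import Pool.Agent.Work.MP_b29d7f_ns_helper20.CNT
import Pool.Agent.Work.MP_b29d7f_ns_helper20.SINT
import Pool.Agent.Work.MP_b29d7f_ns_helper22.APX
import Pool.Agent.Work.MP_b29d7f_ns_helper22.FLAR
import Pool.Agent.Work.MP_b29d7f_ns_helper29.CONC
import Pool.Agent.Work.MP_b29d7f_ns_helper29.SUB
import Pool.Agent.Work.MP_b29d7f_ns_helper29.T2
import Pool.Agent.Work.MP_b29d7f_ns_helper29.T3
import Pool.Agent.Work.MP_b29d7f_ns_helper31.COMP2C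
import Pool.Agent.Work.MP_b29d7f_ns_helper31.LIM2
import Pool.Agent.Work.MP_b29d7f_ns_helper32.PDT
import Pool.Agent.Work.MP_b29d7f_ns_helper32.T0
import Pool.Agent.Work.MP_b29d7f_ns_helper39.LOW
import Pool.Agent.Work.MP_b29d7f_ns_helper39.QORD
import Pool.Agent.Work.MP_b29d7f_ns_helper44.CNTL
import Pool.Agent.Work.MP_b29d7f_ns_helper44.FLAC
import Pool.Agent.Work.MP_b29d7f_ns_helper44.MK5
import Pool.Agent.Work.MP_b29d7f_ns_helper44.SCAL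
import Pool.Agent.Work.MP_b29d7f_ns_helper44.TCON
import Pool.Agent.Work.MP_b29d7f_ns_helper45.EQC
import Pool.Agent.Work.MP_b29d7f_ns_helper45.LB
import Pool.Agent.Work.MP_b29d7f_ns_helper45.UPM
import Pool.Agent.Work.MP_b29d7f_ns_helper45.WKC
import Pool.Agent.Work.MP_b29d7f_ns_helper53.GEO3
import Pool.Agent.Work.MP_b29d7f_ns_helper53.MK0
import Pool.Agent.Work.MP_b29d7f_ns_helper54.COMP2A
import Pool.Agent.Work.MP_b29d7f_ns_helper54.MOVE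
import Pool.Agent.Work.MP_b29d7f_ns_helper55.PDG
import Pool.Agent.Work.MP_b29d7f_ns_helper64.FIN1
import Pool.Agent.Work.MP_b29d7f_ns_helper64.FIN2
import Pool.Agent.Work.MP_b29d7f_ns_helper69.TAIL
import Pool.Agent.Work.MP_b29d7f_ns_helper69.UB
import Pool.Agent.Work.MP_b29d7f_ns_helper74.LIM1
import Pool.Agent.Work.MP_b29d7f_ns_helper74.SC
import Pool.Agent.Work.MP_b29d7f_ns_helper76.COMP2B
import Pool.Agent.Work.MP_b29d7f_ns_helper76.RAD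
import Pool.Agent.Work.MP_b29d7f_ns_helper79.OPT
import Pool.Agent.Work.MP_b29d7f_ns_helper83.COVB
import Pool.Agent.Work.MP_b29d7f_ns_helper83.FARP
import Pool.Agent.Work.MP_b29d7f_ns_helper83.GRO
import Pool.Agent.Work.MP_b29d7f_ns_helper83.OS
import Pool.Agent.Work.MP_b29d7f_ns_helper83.PDL
import Pool.Agent.Work.MP_b29d7f_ns_helper83.XC
import Pool.Agent.Work.MP_b29d7f_ns_helper95.FACT
import Pool.Agent.Work.MP_b29d7f_ns_helper95.INST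
import Pool.Agent.Work.MP_b29d7f_ns_helper96.GEO1
import Pool.Agent.Work.MP_b29d7f_ns_helper96.MKC

open Pool.NS

universe u

namespace Pool.NS.ALL

theorem all  : Stmt_RES1.{u} ∧ Stmt_RES2.{u} ∧ Stmt_RES3.{u} := by
  have hT0 : Stmt_T0 := stmt_T0
  have hPDG : Stmt_PDG := stmt_PDG
  have hPDT : Stmt_PDT := stmt_PDT
  have hCOVB : Stmt_COVB := stmt_COVB
  have hFARP : Stmt_FARP := stmt_FARP hCOVB
  have hT1 : Stmt_T1 := stmt_T1 hT0 hPDG hPDT hCOVB hFARP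
  have hSCAL : Stmt_SCAL := stmt_SCAL
  have hPDL : Stmt_PDL := stmt_PDL hPDG
  have hCONC : Stmt_CONC := stmt_CONC hT0 hT1 hPDG hPDL hPDT
  have hCNT : Stmt_CNT := stmt_CNT
  have hT2 : Stmt_T2 := stmt_T2 hSCAL hCONC hT1 hCNT
  have hT3 : Stmt_T3 := stmt_T3 hT0 hT1 hT2 hPDG hPDL hPDT
  have hFRAME : Stmt_FRAME := stmt_FRAME hT1 hT3
  have hLB : Stmt_LB := stmt_LB
  have hTAIL : Stmt_TAIL := stmt_TAIL hLB
  have hLIM1 : Stmt_LIM1 := stmt_LIM1 hCNT hTAIL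
  have hEQC : Stmt_EQC := stmt_EQC
  have hLIM2 : Stmt_LIM2 := stmt_LIM2 hEQC hTAIL
  have hUB : Stmt_UB := stmt_UB hTAIL
  have hCNTL : Stmt_CNTL := stmt_CNTL
  have hCOMP1 : Stmt_COMP1 := stmt_COMP1 hLB hUB hTAIL hCNTL
  have hWKC : Stmt_WKC := stmt_WKC
  have hCOMP2A : Stmt_COMP2A := stmt_COMP2A hCOMP1 hWKC
  have hCOMP2B : Stmt_COMP2B := stmt_COMP2B
  have hCOMP2C : Stmt_COMP2C := stmt_COMP2C
  have hAPX : Stmt_APX := stmt_APX
  have hSC : Stmt_SC := stmt_SC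
  have hOS : Stmt_OS := stmt_OS hCOMP2A hCOMP2B hCOMP2C hAPX hSC
  have hRAD : Stmt_RAD := stmt_RAD
  have hFLAC : Stmt_FLAC := stmt_FLAC
  have hSUB : Stmt_SUB := stmt_SUB hLB hUB hCNTL
  have hPLC : Stmt_PLC := stmt_PLC hCNTL
  have hTCON : Stmt_TCON := stmt_TCON
  have hUPM : Stmt_UPM := stmt_UPM
  have hGRO : Stmt_GRO := stmt_GRO hUPM
  have hMOVE : Stmt_MOVE := stmt_MOVE hTCON hGRO
  have hHOLD : Stmt_HOLD := stmt_HOLD hSUB hPLC hMOVE hWKC hUPM hCNT hTAIL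
  have hFLAR : Stmt_FLAR := stmt_FLAR
  have hXC : Stmt_XC := stmt_XC hLB hUB hTCON hPLC
  have hHRAD : Stmt_HRAD := stmt_HRAD hTAIL hLB hUB hGRO hXC
  have hREP : Stmt_REP := stmt_REP hTAIL hPLC
  have hFIN2 : Stmt_FIN2 := stmt_FIN2 hSUB hPLC hMOVE hXC hHRAD hREP hUPM hGRO
  have hLATB : Stmt_LATB := stmt_LATB hPLC hCNT
  have hFIN1 : Stmt_FIN1 := stmt_FIN1 hSUB hPLC hMOVE hXC hHRAD hREP hLATB hGRO
  have hMAINA : Stmt_MAINA := stmt_MAINA hFRAME hLIM1 hLIM2 hOS hRAD hFLAC hHOLD hFLAR hFIN2 hFIN1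
  have hFACT : Stmt_FACT := stmt_FACT
  have hLOW : Stmt_LOW := stmt_LOW hFACT
  have hOPT : Stmt_OPT := stmt_OPT hFACT
  have hCHK : Stmt_CHK := stmt_CHK hFACT
  have hMK0 : Stmt_MK0 := stmt_MK0
  have hMK1 : Stmt_MK1 := stmt_MK1 hMK0
  have hMKC : Stmt_MKC := stmt_MKC
  have hMK2 : Stmt_MK2 := stmt_MK2 hMK1 hMKC
  have hMK5 : Stmt_MK5 := stmt_MK5
  have hMERK : Stmt_MERK := stmt_MERK hFACT hCHK hMK1 hMK2 hMK5
  have hINST : Stmt_INST := stmt_INST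
  have hMERR : Stmt_MERR := stmt_MERR hFACT hINST
  have hGEO1 : Stmt_GEO1 := stmt_GEO1
  have hGEO2 : Stmt_GEO2 := stmt_GEO2 hINST
  have hGEO3 : Stmt_GEO3 := stmt_GEO3 hGEO1
  have hMAIN : Stmt_MAIN := stmt_MAIN hMAINA hLOW hOPT hMERK hMERR hINST hGEO1 hGEO2 hGEO3
  have hVAL : Stmt_VAL := stmt_VAL hMAIN hINST
  have hRES1 : Stmt_RES1.{u} := stmt_RES1 hVAL
  have hSINT : Stmt_SINT := stmt_SINT
  have hFINAL : Stmt_FINAL := stmt_FINAL hMAIN hSINT hINST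
  have hQORD : Stmt_QORD := stmt_QORD hINST
  have hRES2 : Stmt_RES2.{u} := stmt_RES2 hFINAL hQORD hSINT
  have hRES3 : Stmt_RES3.{u} := stmt_RES3 hFINAL
  exact ⟨hRES1, hRES2, hRES3⟩

end Pool.NS.ALL
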