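import Pool.Agent.Work.MP_b29d7f_ns.Interface3

/-! Block FRAME -/

set_option autoImplicit false

open Finset Filter Topology

namespace Pool.NS

namespace FRAME_

open Data

variable {R : Type} [CommRing R] {P : Data R} {C₁ : ℝ}

open scoped Classical in
lemma cntV_translate (A : Finset R) (a : R) (v : P.Ω) (z : E (P.e v)) (r : ℝ) :
    P.cntV (A.image fun x => x - a) v z r = P.cntV A v (z + P.em a v) r := by
  unfold cntV
  rw [Finset.filter_image, Finset.card_image_of_injective _ (sub_left_injective)]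
  congr 1
  apply Finset.filter_congr
  intro x _
  rw [em_sub, sub_sub, add_comm (P.em a v) z]

open scoped Classical in
lemma cntT_translate (A : Finset R) (a b : R) (t : P.T) (l : ℤ) :
    P.cntT (A.image fun x => x - a) t b l = P.cntT A t (b + a) l := by
  unfold cntT
  rw [Finset.filter_image, Finset.card_image_of_injective _ (sub_left_injective)]
  congr 1
  apply Finset.filter_congr
  intro x _
  unfold NearT
  rw [sub_eq_iff_eq_add, sub_sub, add_comm a b]

open scoped Classical in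
lemma Gp_translate (ρ : P.Ω → ℝ) (m : P.T → ℤ) (A : Finset R) (a : R) :
    P.Gp ρ m (A.image fun x => x - a) = P.Gp ρ m A := by
  have hinj : Function.Injective fun x : R => x - a := sub_left_injective
  unfold Gp
  rw [Finset.sum_image fun _ _ _ _ h => hinj h]
  apply Finset.sum_congr rfl
  intro x _
  rw [Finset.sum_image fun _ _ _ _ h => hinj h]
  apply Finset.sum_congr rfl
  intro y _
  rw [sub_sub_sub_cancel_right]

lemma gap_diff (h : P.Geo C₁) {s : P.Ω → ℝ} (hs : ∀ v, 0 < s v) (j : P.T → ℤ) {M N : ℕ}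
    (hMN : M ≤ N) (x : R) :
    P.gap (fun v => Real.exp (-(M : ℝ)) * s v) (fun t => j t - M) x
      ≤ P.gap (fun v => Real.exp (-(N : ℝ)) * s v) (fun t => j t - N) x + P.Nt * N := by
  have hMN' : (M : ℝ) ≤ N := by exact_mod_cast hMN
  by_cases hx : x = 0
  · rw [hx, gap_zero, gap_zero, zero_add]
    exact mul_nonneg h.Nt_pos.le (Nat.cast_nonneg _)
  rw [gap_of_ne _ _ hx, gap_of_ne _ _ hx]
  have key : P.kap (fun v => Real.exp (-(M : ℝ)) * s v) (fun t => j t - M) x
      ≤ P.kap (fun v => Real.exp (-(N : ℝ)) * s v) (fun t => j t - N) x + P.Nt * N := by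
    unfold kap Nt
    rw [add_mul, add_add_add_comm, Finset.sum_mul, Finset.sum_mul, ← Finset.sum_add_distrib,
      ← Finset.sum_add_distrib]
    apply add_le_add
    · apply Finset.sum_le_sum
      intro v _
      rw [← mul_add]
      apply mul_le_mul_of_nonneg_left _ (Nat.cast_nonneg _)
      have hsv := hs v
      have hexp : Real.exp (-(M : ℝ)) ≤ Real.exp N * Real.exp (-(N : ℝ)) := by
        rw [← Real.exp_add, add_neg_cancel]
        apply Real.exp_le_exp.2
        have : (0 : ℝ) ≤ M := Nat.cast_nonneg _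
        linarith
      have h1 : ‖P.em x v‖ ^ 2 + (Real.exp (-(M : ℝ)) * s v) ^ 2
          ≤ Real.exp N ^ 2 * (‖P.em x v‖ ^ 2 + (Real.exp (-(N : ℝ)) * s v) ^ 2) := by
        have h2 : (1 : ℝ) ≤ Real.exp N := Real.one_le_exp (Nat.cast_nonneg _)
        have h3 : ‖P.em x v‖ ^ 2 ≤ Real.exp N ^ 2 * ‖P.em x v‖ ^ 2 := by
          nlinarith [sq_nonneg ‖P.em x v‖, one_le_pow₀ h2 (n := 2)]
        have h4 : (Real.exp (-(M : ℝ)) * s v) ^ 2
            ≤ Real.exp N ^ 2 * (Real.exp (-(N : ℝ)) * s v) ^ 2 := by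
          rw [← mul_pow, ← mul_assoc]
          apply pow_le_pow_left₀ (by positivity)
          exact mul_le_mul_of_nonneg_right hexp hsv.le
        linarith
      have h5 := Real.log_le_log (by positivity) h1
      rw [Real.log_mul (by positivity) (by positivity), Real.log_pow, Real.log_exp] at h5
      push_cast at h5
      linarith
    · apply Finset.sum_le_sum
      intro t _
      rw [← mul_add]
      apply mul_le_mul_of_nonneg_left _ (h.lq_pos t).le
      unfold cap
      rw [if_neg hx, if_neg hx]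
      have h1 : max (P.lev t x) (j t - M) ≤ max (P.lev t x) (j t - N) + N := by
        have h2 := le_max_left (P.lev t x) (j t - N)
        have h3 := le_max_right (P.lev t x) (j t - N)
        have h4 : (0 : ℤ) ≤ M := Int.natCast_nonneg _
        have h5 : (0 : ℤ) ≤ N := Int.natCast_nonneg _
        apply max_le <;> linarith
      exact_mod_cast h1
  linarith

lemma Gp_diff (h : P.Geo C₁) {s : P.Ω → ℝ} (hs : ∀ v, 0 < s v) (j : P.T → ℤ) {M N : ℕ}
    (hMN : M ≤ N) (A : Finset R) :
    P.Gp (fun v => Real.exp (-(M : ℝ)) * s v) (fun t => j t - M) A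
      ≤ P.Gp (fun v => Real.exp (-(N : ℝ)) * s v) (fun t => j t - N) A
        + P.Nt * N * (A.card : ℝ) ^ 2 := by
  unfold Gp
  have h1 : ∑ x ∈ A, ∑ y ∈ A, P.gap (fun v => Real.exp (-(M : ℝ)) * s v) (fun t => j t - M) (x - y)
      ≤ ∑ x ∈ A, ∑ y ∈ A, (P.gap (fun v => Real.exp (-(N : ℝ)) * s v) (fun t => j t - N) (x - y)
        + P.Nt * N) :=
    Finset.sum_le_sum fun x _ => Finset.sum_le_sum fun y _ => gap_diff h hs j hMN _
  refine h1.trans (le_of_eq ?_)
  simp only [Finset.sum_add_distrib, Finset.sum_const, nsmul_eq_mul]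
  ring

lemma deg_scale (s : P.Ω → ℝ) (hs : ∀ v, 0 < s v) (j : P.T → ℤ) (M : ℕ) :
    P.deg (fun v => Real.exp (-(M : ℝ)) * s v) (fun t => j t - M) = P.deg s j - M * P.Nt := by
  unfold Data.deg Data.Nt
  rw [mul_add, Finset.mul_sum, Finset.mul_sum, add_sub_add_comm, ← Finset.sum_sub_distrib,
    ← Finset.sum_sub_distrib]
  congr 1
  · apply Finset.sum_congr rfl
    intro v _
    rw [Real.log_mul (Real.exp_pos _).ne' (hs v).ne', Real.log_exp]
    ring
  · apply Finset.sum_congr rfl
    intro t _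
    push_cast
    ring

lemma entropy_bound {C c : ℝ} (hC : 0 < C) (hc : 0 < c) (M : ℕ) :
    C * Real.exp (-(c * M)) * (Real.log (1 / (C * Real.exp (-(c * M)))) + 1)
      ≤ C * (3 + |Real.log C|) * Real.exp (-(c / 2 * M)) := by
  have h1 : Real.exp (-(c * M)) = Real.exp (-(c / 2 * M)) * Real.exp (-(c / 2 * M)) := by
    rw [← Real.exp_add]; congr 1; ring
  have h2 : Real.log (1 / (C * Real.exp (-(c * M)))) = c * M - Real.log C := by
    rw [one_div, Real.log_inv, Real.log_mul hC.ne' (Real.exp_pos _).ne', Real.log_exp]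
    ring
  have h3 : Real.exp (-(c / 2 * M)) * (c * M) ≤ 2 := by
    have h4 := Real.add_one_le_exp (c / 2 * M)
    have h5 : Real.exp (-(c / 2 * M)) * Real.exp (c / 2 * M) = 1 := by
      rw [← Real.exp_add, neg_add_cancel, Real.exp_zero]
    have h6 := Real.exp_pos (-(c / 2 * M))
    nlinarith
  have h4 : Real.exp (-(c / 2 * M)) ≤ 1 := by
    rw [Real.exp_le_one_iff]
    have : 0 ≤ c / 2 * M := by positivity
    linarith
  have h5 := Real.exp_pos (-(c / 2 * M))
  rw [h2, h1]
  set y := Real.exp (-(c / 2 * M)) with hy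
  have h6 : y * (c * M - Real.log C + 1) ≤ 3 + |Real.log C| := by
    have h7 := neg_abs_le (Real.log C)
    have h8 := abs_nonneg (Real.log C)
    have h9 : y * (-Real.log C) ≤ |Real.log C| := by nlinarith [neg_le_abs (Real.log C)]
    nlinarith
  have h7 : 0 ≤ C * y := by positivity
  nlinarith [mul_le_mul_of_nonneg_left h6 h7]

end FRAME_

open FRAME_ Data in
theorem stmt_FRAME (hT1 : Stmt_T1) (hT3 : Stmt_T3) : Stmt_FRAME := by
  classical
  intro R _ P C₁ hG
  obtain ⟨θ₀, C', hθ0, -, hC', h1⟩ := hT1 R P C₁ hG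
  obtain ⟨C, c, K, n₀, hC, hc, h3⟩ := hT3 R P C₁ hG
  have hNt := hG.toGeo.Nt_pos
  -- the scale after which T1 applies
  obtain ⟨M₀, hM₀⟩ : ∃ M₀ : ℕ, ∀ M : ℕ, M₀ ≤ M → C * Real.exp (-(c * M)) ≤ θ₀ := by
    have ht : Tendsto (fun M : ℕ => C * Real.exp (-(c * M))) atTop (𝓝 (C * 0)) := by
      apply Tendsto.const_mul
      apply Real.tendsto_exp_atBot.comp
      apply tendsto_neg_atTop_atBot.comp
      exact Tendsto.const_mul_atTop hc tendsto_natCast_atTop_atTop
    rw [mul_zero] at ht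
    exact eventually_atTop.1 (ht.eventually_le_const hθ0)
  set D : ℝ := C' * (C * (3 + |Real.log C|)) with hD
  have hD0 : 0 ≤ D := by positivity
  set CC : ℝ := C + D + (D + P.Nt * M₀) * Real.exp (c / 2 * M₀) with hCC
  have hE : 0 ≤ (D + P.Nt * M₀) * Real.exp (c / 2 * M₀) := by positivity
  refine ⟨CC, c / 2, K, max n₀ ⌈Real.exp ((M₀ + 1) * P.Nt)⌉₊, by linarith, by linarith, ?_⟩
  intro A L hA hn
  obtain ⟨s, j, hs, hdeg, hV, hT, a₀, ha₀, A₀, hA₀, hA₀c, hA₀b⟩ :=
    h3 A L hA ((le_max_left _ _).trans hn)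
  have hn1 : 1 ≤ A.card := Finset.card_pos.2 hA.ne
  have hMx : M₀ ≤ P.Mx A.card := by
    have h4 : Real.exp ((M₀ + 1) * P.Nt) ≤ A.card := by
      have h5 : ⌈Real.exp ((M₀ + 1) * P.Nt)⌉₊ ≤ A.card := (le_max_right _ _).trans hn
      exact (Nat.le_ceil _).trans (by exact_mod_cast h5)
    have h5 : (M₀ + 1) * P.Nt ≤ Real.log A.card := by
      rw [Real.le_log_iff_exp_le (by exact_mod_cast hn1)]; exact h4
    have h6 := hG.toGeo.lt_Mx_mul A.card
    have h7 : ((M₀ : ℝ) + 1) < P.Mx A.card + 1 := lt_of_mul_lt_mul_right (h5.trans_lt h6) hNt.le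
    have h8 : (M₀ : ℝ) < P.Mx A.card := by linarith
    exact_mod_cast h8.le
  -- gaps for large M
  have hgap1 : ∀ M : ℕ, M₀ ≤ M → M ≤ P.Mx A.card →
      P.Gp (fun v => Real.exp (-(M : ℝ)) * s v) (fun t => j t - M) A
        ≤ D * Real.exp (-(c / 2 * M)) * (A.card : ℝ) ^ 2 := by
    intro M hM hM2
    have h4 := h1 A L hA (fun v => Real.exp (-(M : ℝ)) * s v) (fun t => j t - M)
      (C * Real.exp (-(c * M))) (fun v => mul_pos (Real.exp_pos _) (hs v)) (by positivity)
      (hM₀ M hM) (hV M hM2) (hT M hM2)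
    have h5 : max 0 (-(P.deg (fun v => Real.exp (-(M : ℝ)) * s v) (fun t => j t - M))) = 0 := by
      apply max_eq_left
      rw [deg_scale s hs, hdeg]
      have h6 := hG.toGeo.Mx_mul_le hn1
      have h7 : (M : ℝ) * P.Nt ≤ P.Mx A.card * P.Nt :=
        mul_le_mul_of_nonneg_right (by exact_mod_cast hM2) hNt.le
      linarith
    rw [h5, zero_mul, add_zero] at h4
    refine h4.trans ?_
    have h6 := entropy_bound hC hc M
    have h7 : (0 : ℝ) ≤ (A.card : ℝ) ^ 2 := by positivity
    calc C' * ((A.card : ℝ) ^ 2 *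
          (C * Real.exp (-(c * M)) * (Real.log (1 / (C * Real.exp (-(c * M)))) + 1)))
        ≤ C' * ((A.card : ℝ) ^ 2 * (C * (3 + |Real.log C|) * Real.exp (-(c / 2 * M)))) := by
          gcongr
      _ = _ := by rw [hD]; ring
  have hgap2 : ∀ M : ℕ, M ≤ P.Mx A.card →
      P.Gp (fun v => Real.exp (-(M : ℝ)) * s v) (fun t => j t - M) A
        ≤ CC * Real.exp (-(c / 2 * M)) * (A.card : ℝ) ^ 2 := by
    intro M hM
    have h7 : (0 : ℝ) ≤ (A.card : ℝ) ^ 2 := by positivity
    rcases le_total M₀ M with h4 | h4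
    · refine (hgap1 M h4 hM).trans ?_
      have h5 : D ≤ CC := by rw [hCC]; linarith
      gcongr
    · refine (Gp_diff hG.toGeo hs j h4 A).trans ?_
      have h5 := hgap1 M₀ le_rfl hMx
      have h6 : Real.exp (-(c / 2 * (M₀ : ℝ))) ≤ 1 := by
        rw [Real.exp_le_one_iff]
        have : 0 ≤ c / 2 * (M₀ : ℝ) := by positivity
        linarith
      have h8 : D * Real.exp (-(c / 2 * (M₀ : ℝ))) * (A.card : ℝ) ^ 2 ≤ D * (A.card : ℝ) ^ 2 := by
        have : D * Real.exp (-(c / 2 * (M₀ : ℝ))) ≤ D * 1 := mul_le_mul_of_nonneg_left h6 hD0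
        rw [mul_one] at this
        exact mul_le_mul_of_nonneg_right this h7
      have h9 : (1 : ℝ) ≤ Real.exp (c / 2 * M₀) * Real.exp (-(c / 2 * M)) := by
        rw [← Real.exp_add]
        apply Real.one_le_exp
        have : (M : ℝ) ≤ M₀ := by exact_mod_cast h4
        nlinarith
      have h10 : D + P.Nt * M₀ ≤ CC * Real.exp (-(c / 2 * M)) := by
        have h11 : (D + P.Nt * M₀) * Real.exp (c / 2 * M₀) ≤ CC := by rw [hCC]; linarith
        have h12 : 0 ≤ D + P.Nt * M₀ := by positivity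
        calc D + P.Nt * M₀ ≤ (D + P.Nt * M₀) * (Real.exp (c / 2 * M₀) * Real.exp (-(c / 2 * M))) :=
              le_mul_of_one_le_right h12 h9
          _ = (D + P.Nt * M₀) * Real.exp (c / 2 * M₀) * Real.exp (-(c / 2 * M)) := by ring
          _ ≤ _ := mul_le_mul_of_nonneg_right h11 (Real.exp_pos _).le
      nlinarith
  obtain ⟨hOpt, hcard⟩ := hA.translate a₀
  have hdecay : ∀ M : ℕ, C * Real.exp (-(c * M)) * (A.card : ℝ)
      ≤ CC * Real.exp (-(c / 2 * M)) * (A.card : ℝ) := by
    intro M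
    have h4 : Real.exp (-(c * M)) ≤ Real.exp (-(c / 2 * M)) := by
      apply Real.exp_le_exp.2
      have : 0 ≤ c * M := by positivity
      linarith
    have h5 : C ≤ CC := by rw [hCC]; linarith
    gcongr
  refine ⟨A.image fun x => x - a₀, s, j, hcard, hOpt, ?_⟩
  refine ⟨hs, ?_, ?_, ?_, ?_, ?_, ?_⟩
  · rw [hcard]; exact hdeg
  · exact Finset.mem_image.2 ⟨a₀, ha₀, sub_self _⟩
  · refine ⟨A₀.image fun x => x - a₀, Finset.image_subset_image hA₀, ?_, ?_⟩
    · rw [hcard, Finset.card_image_of_injective _ sub_left_injective]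
      exact hA₀c
    · intro x hx
      obtain ⟨y, hy, rfl⟩ := Finset.mem_image.1 hx
      obtain ⟨h4, h5⟩ := hA₀b y hy
      refine ⟨h4, fun t => ?_⟩
      rcases h5 t with h6 | h6
      · left; rw [h6, sub_self]
      · right; rw [sub_zero]; exact h6
  · intro M hM v z
    rw [hcard] at hM ⊢
    rw [cntV_translate]
    exact (hV M hM v _).trans (hdecay M)
  · intro M hM t a
    rw [hcard] at hM ⊢
    rw [cntT_translate]
    exact (hT M hM t _).trans (hdecay M)
  · intro M hM
    rw [hcard] at hM ⊢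
    rw [Gp_translate]
    exact hgap2 M hM

end Pool.NS
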